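import Mathlib

/-!
# T-TRI, F2, first half: a coprime tuple over `K` is coprime over a finite extension
-/

set_option autoImplicit false

namespace Pool.Agent.Helper28.TRI

open MvPolynomial

section

attribute [local instance] MvPolynomial.algebraMvPolynomial

/-- a coprime tuple over `K` is coprime over `M` (norm from `M[t]` to `K[t]`) -/
theorem coprime_ext {K M : Type} [Field K] [Field M] [Algebra K M] [FiniteDimensional K M]
    {σ : Type} [Fintype σ] (T : Finset (MvPolynomial σ K))
    (hT : ∀ Q, (∀ f ∈ T, Q ∣ f) → IsUnit Q) (Q : MvPolynomial σ M)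
    (hQ : ∀ f ∈ T, Q ∣ MvPolynomial.map (algebraMap K M) f) : IsUnit Q := by
  classical
  have hIT : IsScalarTower K (MvPolynomial σ K) (MvPolynomial σ M) := by
    refine IsScalarTower.of_algebraMap_eq fun x => ?_
    change C (algebraMap K M x) = MvPolynomial.map (algebraMap K M) (C x)
    rw [map_C]
  have hpo : Algebra.IsPushout K (MvPolynomial σ K) M (MvPolynomial σ M) := inferInstance
  let e := Algebra.IsPushout.equiv K (MvPolynomial σ K) M (MvPolynomial σ M)
  have hfree : Module.Free (MvPolynomial σ K) (MvPolynomial σ M) :=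
    Module.Free.of_equiv e.toLinearEquiv
  have hfin : Module.Finite (MvPolynomial σ K) (MvPolynomial σ M) :=
    Module.Finite.equiv e.toLinearEquiv
  have hdvd : ∀ f ∈ T, Algebra.norm (MvPolynomial σ K) Q ∣
      f ^ Module.finrank (MvPolynomial σ K) (MvPolynomial σ M) := by
    intro f hf
    obtain ⟨R, hR⟩ := hQ f hf
    refine ⟨Algebra.norm (MvPolynomial σ K) R, ?_⟩
    rw [← map_mul, ← hR]
    exact (Algebra.norm_algebraMap (S := MvPolynomial σ M) f).symm
  have hunit : IsUnit (Algebra.norm (MvPolynomial σ K) Q) := by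
    by_contra hnu
    have hN0 : Algebra.norm (MvPolynomial σ K) Q ≠ 0 := by
      intro h0
      have hX : IsUnit (0 : MvPolynomial σ K) := by
        refine hT 0 fun f hf => ?_
        have := hdvd f hf
        rw [h0, zero_dvd_iff] at this
        rw [zero_dvd_iff]
        exact eq_zero_of_pow_eq_zero this
      exact not_isUnit_zero hX
    obtain ⟨π, hπ, hπN⟩ := WfDvdMonoid.exists_irreducible_factor hnu hN0
    exact hπ.not_isUnit (hT π fun f hf => hπ.prime.dvd_of_dvd_pow (hπN.trans (hdvd f hf)))
  rw [Algebra.norm_apply] at hunit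
  have h1 := (LinearMap.isUnit_iff_isUnit_det _).2 hunit
  have h2 := (Module.End.isUnit_iff _).1 h1
  obtain ⟨R, hR⟩ := h2.2 1
  exact IsUnit.of_mul_eq_one R hR

end

end Pool.Agent.Helper28.TRI
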